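import Pool.Agent.H.MP_5100e0_lc.C

namespace Pool.Agent.Results.MP_5100e0_lc.Full
open Pool.Agent.Lib.CX Pool.Agent.H.MP_5100e0_lc

theorem result : CoNPHard (fun a : {a : Inst // a.Valid ∧ ∀ u v, a.mult u v ≤ 1} => a.1.Yes) ∧
    CoNPHard (fun a : {a : Inst // a.Valid} => a.1.Yes) := by
  constructor
  · intro A hA
    obtain ⟨r, hr, e⟩ := NPHard.of_one3 (B := fun a : {a : Inst // a.Valid ∧ ∀ u v, a.mult u v ≤ 1} => ¬ a.1.Yes)
      (fun φ => ⟨f φ, valid φ⟩) (PT.subtype pt_f valid) key _ hA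
    exact ⟨r, hr, fun a => not_iff_not.1 (e a)⟩
  · intro A hA
    obtain ⟨r, hr, e⟩ := NPHard.of_one3 (B := fun a : {a : Inst // a.Valid} => ¬ a.1.Yes)
      (fun φ => ⟨f φ, (valid φ).1⟩) (PT.subtype pt_f fun φ => (valid φ).1) key _ hA
    exact ⟨r, hr, fun a => not_iff_not.1 (e a)⟩

end Pool.Agent.Results.MP_5100e0_lc.Full
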